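import Mathlib
import Pool.Agent.Helper27.BE.Final

/-!
MP_aa96c4_al, Q1 (growth of the order of the smallest universal `p`-group for the groups of order
`p ^ n`): the reduction of the upper half to groups of small class.

For every prime `p` and every `δ > 0`, every group of order `p ^ n`, `n` large, has a subgroup of
index `p ^ s`, `s ≤ δ n`, whose nilpotency class is at most `δ n`.
-/

namespace Pool.Agent.Results.MP_aa96c4_al.ClassReduction

theorem result (p : ℕ) (hp : p.Prime) (δ : ℝ) (hδ : 0 < δ) :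
    ∃ n₁ : ℕ, ∀ n, n₁ ≤ n → ∀ (G : Type) [Group G], Nat.card G = p ^ n →
      ∃ (H : Subgroup G) (s k : ℕ), H.index = p ^ s ∧ (s : ℝ) ≤ δ * n ∧ (k : ℝ) ≤ δ * n ∧
        H.lowerCentralSeries k = ⊥ := by
  obtain ⟨n₁, h⟩ := Pool.Agent.Helper27.BE.theoremA hp δ hδ
  refine ⟨n₁, fun n hn G _ hG => ?_⟩
  obtain ⟨H, s, k, h1, h2, h3, h4⟩ := h n hn G hG
  refine ⟨H, s, k, h1, h2, h3, ?_⟩
  rw [← Subgroup.top_subtype_lowerCentralSeries, Subgroup.map_eq_bot_iff_of_injective _
    H.subtype_injective]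
  exact h4

end Pool.Agent.Results.MP_aa96c4_al.ClassReduction
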