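import Pool.Agent.Helper43.DC.Main

/-!
# Universal `p`-groups: polynomial growth when the commutator subgroup has bounded class

For a prime `p` and fixed `c`, `e` there is a constant `C` such that for every `n` some group of order
`p ^ m`, `m ≤ C (n + 1) ^ (4 K (K + 1))`, `K = c p ^ (e - 1) + 1`, contains a copy of every group of order `p ^ n`
and exponent dividing `p ^ e` whose commutator subgroup has class at most `c` (`c = 1`: all metabelian
groups of bounded exponent).

Proof: `N` is the commutator subgroup, `A` its group algebra over `ZMod p`, `Fil` the powers of the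
augmentation ideal. By Jennings `N` acts faithfully on `A / Fil K` and this quotient has polynomial dimension. The
function `Θ : G → A`, `Θ (b x₁ ^ a₁ ⋯) = b`, satisfies `Θ (b u) = b Θ (u)`; the functions
`u ↦ ξ (Θ (h y u y⁻¹))`, `ξ` a linear form on `A / Fil d`, span a space `F d` stable under translations.
Modulo products of `F (d - 1)` with the functions `u ↦ ζ (t ^ u)` the space `F d` is invariant under right
translations by `N`, and one more cyclic factor of order `m` adds at most `m (dim A / Fil K) ^ 2 dim F (d - 1)` to the
dimension of `F d`. (Helper files: Helper43/DC, and Helper27/BE for the theorem of Jennings.)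
-/

set_option autoImplicit false

namespace Pool.Agent.Results.MP_aa96c4_al.DerivedClass

/-- Some group of order `p ^ m` contains a copy of every group `P` of order `p ^ n` with `x ^ (p ^ e) = 1`
for all `x` whose commutator subgroup has class at most `c`. -/
def UniversalDer (p c e n m : ℕ) : Prop :=
  ∃ (U : Type) (_ : Group U), Nat.card U = p ^ m ∧
    ∀ (P : Type) [Group P], Nat.card P = p ^ n → (∀ x : P, x ^ p ^ e = 1) →
      Subgroup.lowerCentralSeries (⊤ : Subgroup (commutator P)) c = ⊥ →
        ∃ φ : P →* U, Function.Injective φ

/-- Polynomial growth for the groups of bounded exponent whose commutator subgroup has bounded class. -/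
theorem result : ∀ p : ℕ, p.Prime → ∀ c e : ℕ, ∃ C : ℕ, ∀ n : ℕ,
    ∃ m ≤ C * (n + 1) ^ (4 * (c * p ^ (e - 1) + 1) * (c * p ^ (e - 1) + 2)),
      UniversalDer p c e n m :=
  fun _ hp c e => Pool.Agent.Helper43.DC.main hp c e

end Pool.Agent.Results.MP_aa96c4_al.DerivedClass
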