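import Mathlib
import Pool.Agent.Helper42.UP.Upper
import Pool.Agent.Helper42.UP.Lower

/-!
MP_aa96c4_al, Q1 (growth of the order of the smallest universal `p`-group for the groups of order
`p ^ n`).

We prove `(2 n² - 3 n - 3) / 27 ≤ f_p(n) ≤ n (n + 1) p ^ ⌊(n - 1) / 2⌋` for every prime `p` and
every `n`.
-/

namespace Pool.Agent.Results.MP_aa96c4_al.SquareRootBound

open Pool.Agent.Helper42.UP

/-- Some group of order `p ^ m` contains a copy of every group of order `p ^ n`. -/
def Universal (p n m : ℕ) : Prop :=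
  ∃ (U : Type) (_ : Group U), Nat.card U = p ^ m ∧
    ∀ (P : Type) [Group P], Nat.card P = p ^ n → ∃ φ : P →* U, Function.Injective φ

theorem result (p : ℕ) (hp : p.Prime) (f : ℕ → ℕ)
    (hf : ∀ n : ℕ, IsLeast {m : ℕ | Universal p n m} (f n)) (n : ℕ) :
    2 * n ^ 2 ≤ 27 * f n + 3 * n + 3 ∧ f n ≤ n * (n + 1) * p ^ ((n - 1) / 2) := by
  have hpf : Fact p.Prime := ⟨hp⟩
  constructor
  · obtain ⟨U, _, hU, hemb⟩ := (hf n).1
    set m := f n with hm
    have hk := Nat.div_add_mod n 3
    set k := n / 3 with hkdef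
    have hr : n % 3 < 3 := Nat.mod_lt _ (by norm_num)
    have key : ∀ d, k + d = n → k * (d * (d - 1) / 2) ≤ m * n := by
      intro d hd
      have := lower p k d m U hU (by rw [hd]; exact hemb)
      rwa [hd] at this
    rcases Nat.eq_zero_or_pos n with h0 | hpos
    · rw [h0]; omega
    have hcases : n = 3 * k ∨ n = 3 * k + 1 ∨ n = 3 * k + 2 := by omega
    have hfin : n * (2 * n ^ 2) ≤ n * (27 * m + 3 * n + 3) := by
      rcases hcases with h | h | h
      · have h1 := key (2 * k) (by omega)
        have h2 : 2 * k * (2 * k - 1) / 2 = k * (2 * k - 1) := by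
          rw [mul_assoc, Nat.mul_div_cancel_left _ (by norm_num)]
        have hk1 : 1 ≤ k := by omega
        obtain ⟨t, ht⟩ : ∃ t, k = t + 1 := ⟨k - 1, by omega⟩
        have h3 : 2 * k - 1 = 2 * t + 1 := by omega
        rw [h2, h3] at h1
        rw [ht] at h1 h
        rw [h] at h1 ⊢
        nlinarith
      · have h1 := key (2 * k + 1) (by omega)
        have h2 : (2 * k + 1) * (2 * k + 1 - 1) / 2 = (2 * k + 1) * k := by
          rw [Nat.add_sub_cancel, ← mul_assoc, mul_comm (2 * k + 1) 2, mul_assoc,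
            Nat.mul_div_cancel_left _ (by norm_num)]
        rw [h2] at h1
        rw [h] at h1 ⊢
        nlinarith
      · have h1 := key (2 * k + 2) (by omega)
        have h2 : (2 * k + 2) * (2 * k + 2 - 1) / 2 = (k + 1) * (2 * k + 1) := by
          have : (2 * k + 2) * (2 * k + 2 - 1) = 2 * ((k + 1) * (2 * k + 1)) := by
            have h3 : 2 * k + 2 - 1 = 2 * k + 1 := by omega
            rw [h3]; ring
          rw [this, Nat.mul_div_cancel_left _ (by norm_num)]
        rw [h2] at h1
        rw [h] at h1 ⊢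
        nlinarith
    exact Nat.le_of_mul_le_mul_left hfin hpos
  · obtain ⟨m, hm, hU⟩ := exists_universal p n
    exact ((hf n).2 hU).trans hm

end Pool.Agent.Results.MP_aa96c4_al.SquareRootBound
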