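import Mathlib
import Pool.Agent.Helper43.RK.All
import Pool.Agent.Helper82.RK.Assembly

/-!
MP_aa96c4_al, Q1 (growth of the order of the smallest universal `p`-group for the groups of order
`p ^ n`), the upper half, for every prime `p` and all groups: the least `m` such that some group of
order `p ^ m` contains a copy of every group of order `p ^ n` grows slower than exponentially in `n`.
-/

namespace Pool.Agent.Results.MP_aa96c4_al.SubexponentialGrowth

open Filter Topology

/-- Some group of order `p ^ m` contains a copy of every group of order `p ^ n`. -/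
def Universal (p n m : ℕ) : Prop :=
  ∃ (U : Type) (_ : Group U), Nat.card U = p ^ m ∧
    ∀ (P : Type) [Group P], Nat.card P = p ^ n → ∃ φ : P →* U, Function.Injective φ

theorem result (p : ℕ) (hp : p.Prime) :
    (∀ n : ℕ, ∃ m : ℕ, Universal p n m) ∧
    (∀ f : ℕ → ℕ, (∀ n : ℕ, IsLeast {m : ℕ | Universal p n m} (f n)) →
      ∀ c : ℝ, 1 < c → Tendsto (fun n : ℕ => (f n : ℝ) / c ^ n) atTop (𝓝 0)) := by
  have hpf : Fact p.Prime := ⟨hp⟩
  refine ⟨fun n => ?_, fun f hf c hc => ?_⟩
  · obtain ⟨m, U, i, h1, h2⟩ := Pool.Agent.Helper32.RK.exists_universal hp n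
    exact ⟨m, U, i, h1, h2⟩
  · exact RKT.main (RK43.stage p) (RK43.base p) f hf c hc

end Pool.Agent.Results.MP_aa96c4_al.SubexponentialGrowth
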